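import Pool.Agent.Helper42.RZ2.Basic
import Pool.Agent.Helper42.RZ2.St.R11
import Pool.Agent.Helper42.RZ.St.S7
import Pool.Agent.Helper42.RZ.St.S12
import Pool.Agent.Helper42.RZ.S15

/-! # RZ2-R12: the constant is at least the infimum of the torus energies -/

set_option autoImplicit false

open MeasureTheory Set Metric Filter Topology
open scoped ENNReal

namespace Pool.Agent.Helper9.RZ2

open Pool.Agent.Helper42.RZ Pool.Agent.Helper42.RZ2 Pool.Agent.Helper42.RZ.S15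

/-- the inequality of `torus_M`, averaged over `M` and localised -/
theorem mixed {s : ℝ} (h2 : s < 2) {η κ C e : ℝ} (hη1 : η < 1)
    {N₀ N₁ : ℕ} (hN₀ : 1 ≤ N₀) (hN : N₀ ≤ N₁) {ρ : ℝ} (hρ : 0 < ρ) (hρ1 : ρ ≤ 1)
    (x : Fin N₀ → E3)
    (hM : ∀ M : ℕ, e * (N₁ : ℝ) ^ (1 + s / 2) - C * N₀ * N₁ ≤
      (N₁ : ℝ) / N₀ * PS x (fun r => K s ((1 - η) * Real.sqrt (N₀ / (4 * Real.pi * N₁)) * r) *
        (1 - (1 - η) * Real.sqrt (N₀ / (4 * Real.pi * N₁)) * r / 4) ^ M) -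
      ((N₁ : ℝ) ^ 2 * (1 - κ) * (4 * Real.pi)) *
        ∫ r in (0 : ℝ)..ρ, K s r * (1 - r / 4) ^ M * (r / 2)) {J : ℝ} (hJ : 0 < J) :
    e * (N₁ : ℝ) ^ (1 + s / 2) - C * N₀ * N₁ ≤
      (N₁ : ℝ) / N₀ * PS x (fun r => K s ((1 - η) * Real.sqrt (N₀ / (4 * Real.pi * N₁)) * r) *
        HJ J (Real.sqrt N₀ * r)) -
      ((N₁ : ℝ) ^ 2 * (1 - κ) * (4 * Real.pi)) *
        ∫ r in (0 : ℝ)..ρ, K s r * HJ J (Real.sqrt (4 * Real.pi * N₁) / (1 - η) * r) *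
          (r / 2) := by
  have hN₀' : (0 : ℝ) < N₀ := by exact_mod_cast hN₀
  have hN₁' : (0 : ℝ) < N₁ := lt_of_lt_of_le hN₀' (by exact_mod_cast hN)
  have hη' : 0 < 1 - η := by linarith
  have hpi : 0 < 4 * Real.pi * N₁ := by positivity
  have step1 : ∀ l : ℝ, 0 ≤ l → e * (N₁ : ℝ) ^ (1 + s / 2) - C * N₀ * N₁ ≤ (N₁ : ℝ) / N₀ *
      PS x (fun r => K s ((1 - η) * Real.sqrt (N₀ / (4 * Real.pi * N₁)) * r) *
        Real.exp (-l * ((1 - η) * Real.sqrt (N₀ / (4 * Real.pi * N₁)) * r))) -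
      ((N₁ : ℝ) ^ 2 * (1 - κ) * (4 * Real.pi)) *
        ∫ r in (0 : ℝ)..ρ, K s r * Real.exp (-l * r) * (r / 2) := by
    intro l hl
    exact Pool.Agent.Helper81.RZ.mix1 h2 x hρ.le hρ1 hl hM
  refine Pool.Agent.Helper81.RZ.mix2 (s := s) h2 x
    (b := (1 - η) * Real.sqrt (N₀ / (4 * Real.pi * N₁))) (ρ := ρ)
    (A := (N₁ : ℝ) / N₀) (B := (N₁ : ℝ) ^ 2 * (1 - κ) * (4 * Real.pi))
    (β := e * (N₁ : ℝ) ^ (1 + s / 2) - C * N₀ * N₁) (J := J)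
    (c₀ := Real.sqrt N₀) (c₁ := Real.sqrt (4 * Real.pi * N₁) / (1 - η)) hρ.le hJ
    (by positivity) ?_
  intro u hu
  have := step1 (Real.sqrt (4 * Real.pi * N₁) * u / (1 - η)) (by positivity)
  have hs : Real.sqrt (4 * Real.pi * N₁) * Real.sqrt (N₀ / (4 * Real.pi * N₁)) =
      Real.sqrt N₀ := by
    rw [← Real.sqrt_mul hpi.le]
    congr 1
    field_simp
  have e1 : ∀ r : ℝ, -(Real.sqrt (4 * Real.pi * N₁) * u / (1 - η)) *
      ((1 - η) * Real.sqrt (N₀ / (4 * Real.pi * N₁)) * r) = -u * (Real.sqrt N₀ * r) := by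
    intro r
    rw [← hs]
    field_simp
  have e2 : ∀ r : ℝ, -(Real.sqrt (4 * Real.pi * N₁) * u / (1 - η)) * r =
      -u * (Real.sqrt (4 * Real.pi * N₁) / (1 - η) * r) := by
    intro r
    ring
  simp only [e1, e2] at this
  exact this

theorem pow3 {N₀ N₁ η : ℝ} (hN₀ : 0 < N₀) (hN₁ : 0 < N₁) (hη : η < 1) (s : ℝ) :
    N₁ / N₀ * ((1 - η) * Real.sqrt (N₀ / (4 * Real.pi * N₁))) ^ (-s) =
      (4 * Real.pi) ^ (s / 2) * ((1 - η) ^ (-s) * (N₁ ^ (1 + s / 2) / N₀ ^ (1 + s / 2))) := by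
  have hpi : 0 < 4 * Real.pi := by positivity
  have h1 : Real.sqrt (N₀ / (4 * Real.pi * N₁)) =
      (Real.sqrt (4 * Real.pi))⁻¹ * Real.sqrt (N₀ / N₁) := by
    rw [← Real.sqrt_inv, ← Real.sqrt_mul (by positivity)]
    congr 1
    field_simp
  have h2 : (1 - η) * ((Real.sqrt (4 * Real.pi))⁻¹ * Real.sqrt (N₀ / N₁)) =
      (Real.sqrt (4 * Real.pi))⁻¹ * ((1 - η) * Real.sqrt (N₀ / N₁)) := by ring
  have h3 : ((Real.sqrt (4 * Real.pi))⁻¹) ^ (-s) = (4 * Real.pi) ^ (s / 2) := by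
    rw [Real.inv_rpow (Real.sqrt_nonneg _), ← Real.rpow_neg (Real.sqrt_nonneg _), neg_neg,
      Real.sqrt_eq_rpow, ← Real.rpow_mul hpi.le]
    congr 1
    ring
  have hη' : 0 < 1 - η := by linarith only [hη]
  rw [h1, h2, Real.mul_rpow (by positivity) (by positivity), h3, mul_left_comm,
    pow2 hN₀ hN₁ hη s]

theorem pow4 {N₁ : ℝ} (hN₁ : 0 < N₁) (s : ℝ) :
    N₁ ^ 2 * (4 * Real.pi) * (Real.sqrt (4 * Real.pi * N₁)) ^ (s - 2) =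
      (4 * Real.pi) ^ (s / 2) * N₁ ^ (1 + s / 2) := by
  have hpi : 0 < 4 * Real.pi := by positivity
  rw [← pow1 hN₁ s, Real.sqrt_mul hpi.le, Real.mul_rpow (Real.sqrt_nonneg _)
    (Real.sqrt_nonneg _)]
  have h3 : (4 * Real.pi) * (Real.sqrt (4 * Real.pi)) ^ (s - 2) = (4 * Real.pi) ^ (s / 2) := by
    rw [Real.sqrt_eq_rpow, ← Real.rpow_mul hpi.le, mul_comm, ← Real.rpow_add_one hpi.ne']
    congr 1
    ring
  rw [← h3]
  ring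


theorem core2 {s : ℝ} (h2 : s < 2) {c c' : ℝ} (hc : 0 < c)
    (hlb : ∀ J : ℝ, 1 ≤ J → ∀ (N : ℕ) (x : Fin N → E3), 1 ≤ N → Conf x →
      PS x (fun r => K s r * HJ J (Real.sqrt N * r)) -
        (N : ℝ) ^ 2 * bg (fun r => K s r * HJ J (Real.sqrt N * r)) ≤
        (1 + c / J) * (PS x (K s) - Cc s * (N : ℝ) ^ 2) + c' / J * (N : ℝ) ^ (1 + s / 2))
    {η κ ε₀ C e : ℝ} (hη1 : η < 1) (hε1 : ε₀ ≤ 1)
    (hup : ∀ (N₀ N₁ : ℕ), 1 ≤ N₀ → N₀ ≤ N₁ → ∀ ρ : ℝ, 0 < ρ → ρ * Real.sqrt (N₁ / N₀) ≤ ε₀ →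
      ∀ x : Fin N₀ → E3, Conf x → ∀ M : ℕ,
      e * (N₁ : ℝ) ^ (1 + s / 2) - C * N₀ * N₁ ≤
      (N₁ : ℝ) / N₀ * PS x (fun r => K s ((1 - η) * Real.sqrt (N₀ / (4 * Real.pi * N₁)) * r) *
        (1 - (1 - η) * Real.sqrt (N₀ / (4 * Real.pi * N₁)) * r / 4) ^ M) -
      ((N₁ : ℝ) ^ 2 * (1 - κ) * (4 * Real.pi)) *
        ∫ r in (0 : ℝ)..ρ, K s r * (1 - r / 4) ^ M * (r / 2))
    {J : ℝ} (hJ : 1 ≤ J) {Λ : ℝ} (hΛ : 0 < Λ) {N₀ N₁ : ℕ} (hN₀ : 1 ≤ N₀) (hN : N₀ ≤ N₁)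
    (hΛN : Λ ≤ ε₀ * Real.sqrt N₀) :
    e * (N₁ : ℝ) ^ (1 + s / 2) - C * N₀ * N₁ ≤
      (4 * Real.pi) ^ (s / 2) * ((N₁ : ℝ) ^ (1 + s / 2) * ((1 - η) ^ (-s) * (Zi s J +
        (1 + c / J) * ((minE s N₀ - Cc s * (N₀ : ℝ) ^ 2) / (N₀ : ℝ) ^ (1 + s / 2) +
          1 / (N₀ : ℝ) ^ (1 + s / 2)) + c' / J) -
        (1 - κ) * ((1 - η) ^ (2 - s) * Z s J (Λ / (1 - η))))) := by
  have hJ0 : 0 < J := by linarith
  have hN₀' : (0 : ℝ) < N₀ := by exact_mod_cast hN₀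
  have hN₁' : (0 : ℝ) < N₁ := by exact_mod_cast (hN₀.trans hN)
  have hpi : 0 < 4 * Real.pi := by positivity
  have hpi1 : 1 ≤ 4 * Real.pi := by linarith only [hpi, Real.pi_gt_three]
  have hs0 : 0 < Real.sqrt N₀ := Real.sqrt_pos.2 hN₀'
  have hs1 : 0 < Real.sqrt (4 * Real.pi * N₁) := Real.sqrt_pos.2 (by positivity)
  have hs2 : Real.sqrt N₁ ≤ Real.sqrt (4 * Real.pi * N₁) := by
    refine Real.sqrt_le_sqrt ?_
    nlinarith only [hpi1]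
  have hs3 : 0 < Real.sqrt N₁ := Real.sqrt_pos.2 hN₁'
  have hη0 : 0 < 1 - η := by linarith
  have hP0 : 0 < (N₀ : ℝ) ^ (1 + s / 2) := by positivity
  have hP1 : 0 < (N₁ : ℝ) ^ (1 + s / 2) := by positivity
  have hQ : 0 < (4 * Real.pi) ^ (s / 2) := by positivity
  obtain ⟨x, hx, hxE⟩ := exists_near (s := s) N₀ one_pos
  have hρ0 : 0 < Λ / Real.sqrt (4 * Real.pi * N₁) := by positivity
  have hρ : Λ / Real.sqrt (4 * Real.pi * N₁) * Real.sqrt (N₁ / N₀) ≤ ε₀ := by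
    have h3 : Λ / Real.sqrt (4 * Real.pi * N₁) ≤ Λ / Real.sqrt N₁ :=
      div_le_div_of_nonneg_left hΛ.le hs3 hs2
    refine (mul_le_mul_of_nonneg_right h3 (Real.sqrt_nonneg _)).trans ?_
    rw [Real.sqrt_div' _ hN₀'.le, div_mul_div_comm, mul_comm (Real.sqrt N₁),
      mul_div_mul_right _ _ hs3.ne', div_le_iff₀ hs0]
    exact hΛN
  have hρ1 : Λ / Real.sqrt (4 * Real.pi * N₁) ≤ 1 := by
    have h1 : (1 : ℝ) ≤ Real.sqrt (N₁ / N₀) := by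
      rw [Real.one_le_sqrt, one_le_div hN₀']
      exact_mod_cast hN
    exact ((le_mul_of_one_le_right hρ0.le h1).trans hρ).trans hε1
  have key := mixed h2 hη1 hN₀ hN hρ0 hρ1 x
    (hup N₀ N₁ hN₀ hN (Λ / Real.sqrt (4 * Real.pi * N₁)) hρ0 hρ x hx) hJ0
  have hb : 0 < (1 - η) * Real.sqrt (N₀ / (4 * Real.pi * N₁)) := by positivity
  rw [PS_scale x hb (fun r => HJ J (Real.sqrt N₀ * r)), ← mul_assoc, pow3 hN₀' hN₁' hη1] at key
  have hsc : ∫ r in (0 : ℝ)..(Λ / Real.sqrt (4 * Real.pi * N₁)),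
      K s r * HJ J (Real.sqrt (4 * Real.pi * N₁) / (1 - η) * r) * (r / 2) =
      (Real.sqrt (4 * Real.pi * N₁)) ^ (s - 2) * ((1 - η) ^ (2 - s) * Z s J (Λ / (1 - η))) := by
    rw [scale (s := s) (c := Real.sqrt (4 * Real.pi * N₁) / (1 - η)) (by positivity) J
      (Λ / Real.sqrt (4 * Real.pi * N₁)) (by positivity)]
    rw [Real.div_rpow hs1.le hη0.le, div_eq_mul_inv, ← Real.rpow_neg hη0.le, mul_assoc]
    congr 2
    · congr 1; ring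
    · congr 1
      field_simp
  rw [hsc] at key
  have h5 := hlb J hJ N₀ x hN₀ hx
  have h6 := bg_scale h2 hJ0 hN₀' (s := s)
  have hcJ : 0 < 1 + c / J := by positivity
  have h7 : PS x (fun r => K s r * HJ J (Real.sqrt N₀ * r)) ≤ (N₀ : ℝ) ^ (1 + s / 2) *
      (Zi s J + (1 + c / J) * ((minE s N₀ - Cc s * (N₀ : ℝ) ^ 2) / (N₀ : ℝ) ^ (1 + s / 2) +
          1 / (N₀ : ℝ) ^ (1 + s / 2)) + c' / J) := by
    have h8 : (N₀ : ℝ) ^ (1 + s / 2) *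
      (Zi s J + (1 + c / J) * ((minE s N₀ - Cc s * (N₀ : ℝ) ^ 2) / (N₀ : ℝ) ^ (1 + s / 2) +
          1 / (N₀ : ℝ) ^ (1 + s / 2)) + c' / J) = (N₀ : ℝ) ^ (1 + s / 2) * Zi s J +
      (1 + c / J) * (minE s N₀ - Cc s * (N₀ : ℝ) ^ 2 + 1) + c' / J * (N₀ : ℝ) ^ (1 + s / 2) := by
      field_simp
    rw [h8]
    have h9 : (1 + c / J) * (PS x (K s) - Cc s * (N₀ : ℝ) ^ 2) ≤
        (1 + c / J) * (minE s N₀ - Cc s * (N₀ : ℝ) ^ 2 + 1) :=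
      mul_le_mul_of_nonneg_left (by linarith only [hxE]) hcJ.le
    linarith only [h5, h6, h9]
  refine key.trans ?_
  have h10 : (4 * Real.pi) ^ (s / 2) * ((1 - η) ^ (-s) * ((N₁ : ℝ) ^ (1 + s / 2) /
      (N₀ : ℝ) ^ (1 + s / 2))) * PS x (fun r => K s r * HJ J (Real.sqrt N₀ * r)) ≤
      (4 * Real.pi) ^ (s / 2) * ((1 - η) ^ (-s) * ((N₁ : ℝ) ^ (1 + s / 2) /
      (N₀ : ℝ) ^ (1 + s / 2))) * ((N₀ : ℝ) ^ (1 + s / 2) *
      (Zi s J + (1 + c / J) * ((minE s N₀ - Cc s * (N₀ : ℝ) ^ 2) / (N₀ : ℝ) ^ (1 + s / 2) +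
          1 / (N₀ : ℝ) ^ (1 + s / 2)) + c' / J)) :=
    mul_le_mul_of_nonneg_left h7 (by positivity)
  refine (sub_le_sub_right h10 _).trans (le_of_eq ?_)
  have h11 : (N₁ : ℝ) ^ 2 * (1 - κ) * (4 * Real.pi) * (Real.sqrt (4 * Real.pi * N₁) ^ (s - 2) *
      ((1 - η) ^ (2 - s) * Z s J (Λ / (1 - η)))) =
      ((N₁ : ℝ) ^ 2 * (4 * Real.pi) * (Real.sqrt (4 * Real.pi * N₁)) ^ (s - 2)) *
      ((1 - κ) * ((1 - η) ^ (2 - s) * Z s J (Λ / (1 - η)))) := by ring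
  rw [h11, pow4 hN₁']
  field_simp

/-- for large `N₀` the torus energy is at most the normalised second order term -/
theorem torus_le {s : ℝ} (h0 : 0 < s) (h2 : s < 2) {e : ℝ} (he : e < 0) (hT : TorusBound s e)
    {ε : ℝ} (hε : 0 < ε) : ∃ N₂ : ℕ, ∀ N₀ : ℕ, N₂ ≤ N₀ →
      e ≤ (4 * Real.pi) ^ (s / 2) * (f s N₀ + ε / 4) := by
  obtain ⟨c, c', hc, hc', hlb⟩ := lb_loc h0 h2
  obtain ⟨J, hJ1, hJ⟩ : ∃ J : ℝ, 1 ≤ J ∧ 4 * (c' / J) ≤ ε / 16 := by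
    refine ⟨max 1 (64 * c' / ε), le_max_left _ _, ?_⟩
    have h3 : 0 < max 1 (64 * c' / ε) := lt_max_of_lt_left one_pos
    rw [← mul_div_assoc, div_le_iff₀ h3]
    have h4 := mul_le_mul_of_nonneg_left (le_max_right 1 (64 * c' / ε))
      (show (0 : ℝ) ≤ ε / 16 by positivity)
    have h5 : ε / 16 * (64 * c' / ε) = 4 * c' := by field_simp; ring
    linarith only [h4, h5]
  have hJ0 : 0 < J := by linarith
  obtain ⟨η, hη0, hη2, hη⟩ := exists_eta s (Zi s J) (show 0 < ε / 16 by positivity)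
  obtain ⟨ε₁, C, hε₁, hup⟩ := torus_M h0 h2 he hT hη0 (show η < 1 by linarith only [hη0, hη2]) hη0
  set ε₀ : ℝ := min ε₁ 1 with hε₀def
  have hε₀ : 0 < ε₀ := lt_min hε₁ one_pos
  have hη1 : 0 < 1 - η := by linarith
  obtain ⟨Λ, hΛ0, hΛ⟩ : ∃ Λ : ℝ, 0 < Λ ∧ Zi s J - Z s J (Λ / (1 - η)) ≤ ε / 16 := by
    have h3 : ∀ᶠ R in atTop, Zi s J - ε / 16 < Z s J R :=
      (Z_tendsto h2 hJ0).eventually (lt_mem_nhds (by linarith))
    obtain ⟨R₀, hR₀⟩ := eventually_atTop.1 h3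
    refine ⟨max 1 R₀, lt_max_of_lt_left one_pos, ?_⟩
    have h4 : R₀ ≤ max 1 R₀ / (1 - η) := by
      rw [le_div_iff₀ hη1]
      have h5 : 0 < max 1 R₀ := lt_max_of_lt_left one_pos
      have h6 : R₀ ≤ max 1 R₀ := le_max_right _ _
      nlinarith only [h6, hη0, h5, hη2]
    linarith only [hR₀, h4, hR₀ _ h4]
  -- constants
  have hη4 : (1 - η) ^ (-s) ≤ 4 := by
    have h3 : (1 - η) ^ (-s) ≤ (1 / 2 : ℝ) ^ (-s) :=
      Real.rpow_le_rpow_of_nonpos (by norm_num) (by linarith) (by linarith)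
    have h4 : (1 / 2 : ℝ) ^ (-s) ≤ (1 / 2 : ℝ) ^ (-2 : ℝ) :=
      Real.rpow_le_rpow_of_exponent_ge (by norm_num) (by norm_num) (by linarith)
    have h5 : (1 / 2 : ℝ) ^ (-2 : ℝ) = 4 := by
      rw [Real.rpow_neg (by norm_num), Real.rpow_two]; norm_num
    linarith
  have hη5 : 1 ≤ (1 - η) ^ (-s) :=
    Real.one_le_rpow_of_pos_of_le_one_of_nonpos hη1 (by linarith only [hη0]) (by linarith)
  have hη6 : (1 - η) ^ (2 - s) ≤ 1 :=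
    Real.rpow_le_one hη1.le (by linarith) (by linarith)
  have hη7 : 0 ≤ (1 - η) ^ (2 - s) := by positivity
  have hcJ : 0 < c / J := by positivity
  -- N₂
  have hT1 : Tendsto (fun N : ℕ => ε₀ * Real.sqrt N) atTop atTop :=
    (Real.tendsto_sqrt_atTop.comp tendsto_natCast_atTop_atTop).const_mul_atTop hε₀
  have hT2 : Tendsto (fun N : ℕ => (N : ℝ) ^ (1 + s / 2)) atTop atTop :=
    (tendsto_rpow_atTop (by linarith)).comp tendsto_natCast_atTop_atTop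
  obtain ⟨N₂, hN₂⟩ := eventually_atTop.1 ((hT1.eventually_ge_atTop Λ).and
    ((hT2.eventually_ge_atTop (64 * (1 + c / J) / ε)).and (eventually_ge_atTop 1)))
  refine ⟨N₂, fun N₀ hN₀ => ?_⟩
  obtain ⟨hA1, hA2, hA3⟩ := hN₂ N₀ hN₀
  have hN₀' : (0 : ℝ) < N₀ := by exact_mod_cast hA3
  have hP0 : 0 < (N₀ : ℝ) ^ (1 + s / 2) := by positivity
  have hf0 := f_nonpos h0 h2 hA3
  -- the right hand side
  set G : ℝ := (1 - η) ^ (-s) * (Zi s J + (1 + c / J) *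
        ((minE s N₀ - Cc s * (N₀ : ℝ) ^ 2) / (N₀ : ℝ) ^ (1 + s / 2) +
          1 / (N₀ : ℝ) ^ (1 + s / 2)) + c' / J) -
        (1 - η) * ((1 - η) ^ (2 - s) * Z s J (Λ / (1 - η))) with hG
  have hGle : G ≤ f s N₀ + ε / 4 := by
    have e1 : G = ((1 - η) ^ (-s) * Zi s J - (1 - η) * ((1 - η) ^ (2 - s) * Zi s J)) +
        ((1 - η) * (1 - η) ^ (2 - s)) * (Zi s J - Z s J (Λ / (1 - η))) +
        (1 - η) ^ (-s) * (1 + c / J) * f s N₀ +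
        (1 - η) ^ (-s) * ((1 + c / J) / (N₀ : ℝ) ^ (1 + s / 2)) + (1 - η) ^ (-s) * (c' / J) := by
      rw [hG, f]; ring
    have e2 : (1 - η) * (1 - η) ^ (2 - s) ≤ 1 := by
      calc (1 - η) * (1 - η) ^ (2 - s) ≤ 1 * 1 := by
            refine mul_le_mul (by linarith only [hη0]) hη6 hη7 zero_le_one
        _ = 1 := one_mul 1
    have e3 : 0 ≤ Zi s J - Z s J (Λ / (1 - η)) := by
      linarith only [h2, hJ0, hΛ0, hη1, Z_le_Zi h2 hJ0 (show 0 ≤ Λ / (1 - η) by positivity)]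
    have e4 : ((1 - η) * (1 - η) ^ (2 - s)) * (Zi s J - Z s J (Λ / (1 - η))) ≤ ε / 16 := by
      refine (mul_le_mul_of_nonneg_right e2 e3).trans ?_
      rw [one_mul]; exact hΛ
    have e5 : (1 - η) ^ (-s) * (1 + c / J) * f s N₀ ≤ f s N₀ := by
      have : 1 ≤ (1 - η) ^ (-s) * (1 + c / J) := by nlinarith only [hη5, hη0, hcJ, hη2]
      nlinarith only [hη0, hη2, hf0, this]
    have e6 : (1 - η) ^ (-s) * ((1 + c / J) / (N₀ : ℝ) ^ (1 + s / 2)) ≤ ε / 16 := by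
      have h5 : (1 + c / J) / (N₀ : ℝ) ^ (1 + s / 2) ≤ ε / 64 := by
        rw [div_le_iff₀ hP0]
        have h6 := mul_le_mul_of_nonneg_left hA2 (show (0 : ℝ) ≤ ε / 64 by positivity)
        have h7 : ε / 64 * (64 * (1 + c / J) / ε) = 1 + c / J := by field_simp
        linarith only [h6, h7]
      have h8 : 0 ≤ (1 + c / J) / (N₀ : ℝ) ^ (1 + s / 2) := by positivity
      calc (1 - η) ^ (-s) * ((1 + c / J) / (N₀ : ℝ) ^ (1 + s / 2)) ≤ 4 * (ε / 64) :=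
            mul_le_mul hη4 h5 h8 (by norm_num)
        _ = ε / 16 := by ring
    have e7 : (1 - η) ^ (-s) * (c' / J) ≤ ε / 16 :=
      (mul_le_mul_of_nonneg_right hη4 (by positivity)).trans hJ
    rw [e1]
    linarith only [hη, e4, e5, e6, e7]
  -- `N₁ → ∞`
  have hQ : 0 < (4 * Real.pi) ^ (s / 2) := by positivity
  have hlim : Tendsto (fun N₁ : ℕ => e - C * N₀ * (N₁ : ℝ) ^ (-(s / 2))) atTop
      (𝓝 (e - C * N₀ * 0)) := by
    refine tendsto_const_nhds.sub (tendsto_const_nhds.mul ?_)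
    exact (tendsto_rpow_neg_atTop (by linarith only [h0])).comp tendsto_natCast_atTop_atTop
  rw [mul_zero, sub_zero] at hlim
  have hev : ∀ᶠ N₁ : ℕ in atTop, e - C * N₀ * (N₁ : ℝ) ^ (-(s / 2)) ≤
      (4 * Real.pi) ^ (s / 2) * G := by
    filter_upwards [eventually_ge_atTop N₀] with N₁ hN
    have hN₁' : (0 : ℝ) < N₁ := by exact_mod_cast (hA3.trans hN)
    have hP1 : 0 < (N₁ : ℝ) ^ (1 + s / 2) := by positivity
    have h3 := core2 h2 hc hlb (show η < 1 by linarith only [hη0, hη2]) (min_le_right ε₁ 1)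
      (fun N₀ N₁ a1 a2 ρ a3 a4 => hup N₀ N₁ a1 a2 ρ a3 (a4.trans (min_le_left _ _)))
      hJ1 hΛ0 hA3 hN hA1
    rw [← hG] at h3
    have h4 : (N₁ : ℝ) ^ (1 + s / 2) * (N₁ : ℝ) ^ (-(s / 2)) = N₁ := by
      rw [← Real.rpow_add hN₁']
      have : 1 + s / 2 + -(s / 2) = 1 := by ring
      rw [this, Real.rpow_one]
    refine le_of_mul_le_mul_left ?_ hP1
    calc (N₁ : ℝ) ^ (1 + s / 2) * (e - C * N₀ * (N₁ : ℝ) ^ (-(s / 2)))
        = e * (N₁ : ℝ) ^ (1 + s / 2) - C * N₀ *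
          ((N₁ : ℝ) ^ (1 + s / 2) * (N₁ : ℝ) ^ (-(s / 2))) := by ring
      _ = e * (N₁ : ℝ) ^ (1 + s / 2) - C * N₀ * N₁ := by rw [h4]
      _ ≤ _ := h3
      _ = _ := by ring
  have h5 : e ≤ (4 * Real.pi) ^ (s / 2) * G := le_of_tendsto hlim hev
  exact h5.trans (mul_le_mul_of_nonneg_left hGle hQ.le)

theorem lower_torus {s : ℝ} (h0 : 0 < s) (h2 : s < 2) {c : ℝ}
    (hc : Tendsto (fun N : ℕ => (minE s N - Cc s * (N : ℝ) ^ 2) / (N : ℝ) ^ (1 + s / 2)) atTop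
      (𝓝 c)) {e : ℝ} (he : e < 0) (hT : TorusBound s e) :
    e ≤ (4 * Real.pi) ^ (s / 2) * c := by
  have hQ : 0 < (4 * Real.pi) ^ (s / 2) := by positivity
  refine le_of_forall_pos_le_add fun δ hδ => ?_
  obtain ⟨N₂, hN₂⟩ := torus_le h0 h2 he hT
    (show 0 < 4 * (δ / (4 * Real.pi) ^ (s / 2)) by positivity)
  have h3 : Tendsto (fun N : ℕ => (4 * Real.pi) ^ (s / 2) * (f s N +
      4 * (δ / (4 * Real.pi) ^ (s / 2)) / 4)) atTop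
      (𝓝 ((4 * Real.pi) ^ (s / 2) * (c + 4 * (δ / (4 * Real.pi) ^ (s / 2)) / 4))) :=
    tendsto_const_nhds.mul (hc.add tendsto_const_nhds)
  have h4 := ge_of_tendsto h3 (eventually_atTop.2 ⟨N₂, hN₂⟩)
  refine h4.trans (le_of_eq ?_)
  field_simp

end Pool.Agent.Helper9.RZ2
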